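import Pool.Agent.helper34.AC.Spec2

set_option autoImplicit false

namespace Pool.Agent.helper34.AC

theorem WEX_lt {a b : ℝ} (ha : 0 ≤ a) (hab : a < b) : a * Real.exp a < b * Real.exp b := by
  have h1 : Real.exp a < Real.exp b := Real.exp_lt_exp.2 hab
  have h2 := Real.exp_pos a
  nlinarith

theorem WEX_inj {a b : ℝ} (ha : 0 ≤ a) (hb : 0 ≤ b) (h : a * Real.exp a = b * Real.exp b) :
    a = b := by
  rcases lt_trichotomy a b with hlt | heq | hgt
  · exact absurd h (WEX_lt ha hlt).ne
  · exact heq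
  · exact absurd h (WEX_lt hb hgt).ne'

theorem WEX_exists {x : ℝ} (hx : 0 ≤ x) : ∃ w : ℝ, 0 ≤ w ∧ w * Real.exp w = x := by
  have hcont : ContinuousOn (fun w : ℝ => w * Real.exp w) (Set.Icc 0 x) := by fun_prop
  have h1 : x ∈ Set.Icc ((fun w : ℝ => w * Real.exp w) 0) ((fun w : ℝ => w * Real.exp w) x) := by
    constructor
    · simpa using hx
    · have := Real.one_le_exp hx
      show x ≤ x * Real.exp x
      nlinarith
  obtain ⟨w, hw, hw2⟩ := intermediate_value_Icc hx hcont h1
  exact ⟨w, hw.1, hw2⟩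

theorem WEX_spec {x : ℝ} (hx : 0 ≤ x) : 0 ≤ W x ∧ W x * Real.exp (W x) = x :=
  Classical.epsilon_spec (p := fun w => 0 ≤ w ∧ w * Real.exp w = x) (WEX_exists hx)

theorem WEX : WEX_stmt := by
  refine ⟨fun x hx => WEX_spec hx, fun w hw => ?_, fun x y hx hxy => ?_, fun x hx => ?_, ?_⟩
  · have h := WEX_spec (x := w * Real.exp w) (mul_nonneg hw (Real.exp_pos w).le)
    exact WEX_inj h.1 hw h.2
  · have h1 := WEX_spec hx
    have h2 := WEX_spec (hx.trans hxy)
    by_contra hlt
    push Not at hlt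
    have := WEX_lt h2.1 hlt
    rw [h1.2, h2.2] at this
    linarith
  · have h1 := WEX_spec hx.le
    rcases h1.1.lt_or_eq with h | h
    · exact h
    · exfalso
      have h2 := h1.2
      rw [← h] at h2
      simp at h2
      linarith
  · have h1 := WEX_spec (le_refl (0 : ℝ))
    have h2 : W 0 = 0 := WEX_inj h1.1 le_rfl (by rw [h1.2]; simp)
    rw [psi, h2, Real.exp_zero]

end Pool.Agent.helper34.AC
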