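import Pool.Agent.helper34.AC.Spec4

set_option autoImplicit false

open Filter Topology

namespace Pool.Agent.helper34.AC

theorem ZST_bell_le (n : ℕ) : Nat.bell n ≤ Nat.bell (n + 1) := by
  rw [Nat.bell_succ]
  calc Nat.bell n = n.choose 0 * Nat.bell (n - 0) := by simp
    _ ≤ _ := Finset.single_le_sum (f := fun k => n.choose k * Nat.bell (n - k))
      (fun i _ => Nat.zero_le _) (by simp)

theorem ZST_bell_pos (n : ℕ) : 1 ≤ Nat.bell n := by
  induction n with
  | zero => simp
  | succ n ih => exact ih.trans (ZST_bell_le n)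

theorem ZST_gb (n : ℕ) : 1 ≤ gb n := by
  unfold gb bl
  rw [le_div_iff₀ (by exact_mod_cast ZST_bell_pos n), one_mul]
  exact_mod_cast ZST_bell_le n

theorem ZST_N0 {V : Type} (G : SimpleGraph V) (U : Finset V) : 0 ≤ N G U := by
  unfold N; positivity

theorem ZST_card {V : Type} [DecidableEq V] (G : SimpleGraph V) (X R S : Finset V)
    (hS : S ∈ st G X R) : S ⊆ R := by
  classical
  unfold st at hS
  rw [Finset.mem_filter, Finset.mem_powerset] at hS
  exact hS.1

theorem ZST (hT2S : T2S_stmt) (hOMS : OMS_stmt) (hSTR : STR_stmt) (hTAI : TAI_stmt)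
    (hRCN : RCN_stmt) (hMAIN : MAIN_stmt) (hGAP : GAP_stmt) : ZST_stmt := by
  classical
  obtain ⟨n0, h2⟩ := hT2S
  obtain ⟨o, hmono, ho0, ⟨M1, hM1⟩, hO⟩ := hOMS
  obtain ⟨C, hC, M2, hM2⟩ := hSTR
  obtain ⟨M3, hM3⟩ := hTAI
  refine ⟨C + 512, by positivity, max (max M1 M2) (max M3 (2 * n0)), ?_⟩
  intro m hm V _ G U u hU hu
  have hm1 : M1 ≤ m := (le_max_left _ _).trans ((le_max_left _ _).trans hm)
  have hm2 : M2 ≤ m := (le_max_right _ _).trans ((le_max_left _ _).trans hm)
  have hm3 : M3 ≤ m := (le_max_left _ _).trans ((le_max_right _ _).trans hm)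
  have hm4 : 2 * n0 ≤ m := (le_max_right _ _).trans ((le_max_right _ _).trans hm)
  have hg1 := ZST_gb m
  have hg0 : 0 < gb m := by linarith
  have hom0 : 0 ≤ om m := by unfold om; positivity
  have hOm : Om G (U.erase u) o := fun A _ => hO V G A
  have hom : o m ≤ om m + 1 / gb m := by
    rw [hM1 m hm1]
    have : 0 ≤ 1 / gb m := by positivity
    linarith
  have hS := hM2 m hm2 V G U u o hU hu hmono hOm hom
  have hT := hM3 m hm3 V G U u o hU hu hmono hOm hom
  obtain ⟨-, -, hR⟩ := hRCN V G U u hu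
  have hcard : (U.erase u).card = m := by
    rw [Finset.card_erase_of_mem hu, hU]; simp
  -- the termwise bound
  have hterm : ∀ S ∈ st G {u} (U.erase u),
      gb (m - S.card) * N G (U.erase u \ S) -
        (if m < 2 * S.card then N G (U.erase u \ S) else 0) ≤ N1 G (U.erase u \ S) := by
    intro S hSs
    have hsub := ZST_card G _ _ S hSs
    have hc : (U.erase u \ S).card = m - S.card := by
      rw [Finset.card_sdiff_of_subset hsub, hcard]
    by_cases hlt : m < 2 * S.card
    · rw [if_pos hlt]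
      have h3 := hMAIN V G (U.erase u \ S)
      rw [hc] at h3
      have h4 := (hGAP.1 (m - S.card)).1
      have h5 := mul_le_mul_of_nonneg_right h4 (ZST_N0 G (U.erase u \ S))
      linarith
    · rw [if_neg hlt]
      have h3 := h2 V G (U.erase u \ S) (by rw [hc]; omega)
      rw [hc] at h3
      linarith
  have hsum := Finset.sum_le_sum hterm
  rw [Finset.sum_sub_distrib, ← Finset.sum_filter] at hsum
  have hN0 := ZST_N0 G U
  have hfin : 512 / gb m ^ 3 ≤ 512 * (1 + om m) ^ 3 / gb m ^ 2 := by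
    have h6 : (1 : ℝ) ≤ (1 + om m) ^ 3 := one_le_pow₀ (by linarith)
    calc 512 / gb m ^ 3 ≤ 512 / gb m ^ 2 := by
          apply div_le_div_of_nonneg_left (by norm_num) (by positivity)
          exact pow_le_pow_right₀ hg1 (by norm_num)
      _ ≤ 512 * (1 + om m) ^ 3 / gb m ^ 2 := by
          apply div_le_div_of_nonneg_right _ (by positivity)
          linarith
  have h7 := mul_le_mul_of_nonneg_right hfin hN0
  have h8 : (C + 512) * (1 + om m) ^ 3 / gb m ^ 2 =
      C * (1 + om m) ^ 3 / gb m ^ 2 + 512 * (1 + om m) ^ 3 / gb m ^ 2 := by ring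
  rw [h8, hR]
  nlinarith [hS, hT, hsum, h7]

end Pool.Agent.helper34.AC
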